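import Mathlib

set_option autoImplicit false

namespace Pool.Agent.Results.MP_7d76f2_co.Counterexample

section Defs

variable {V : Type}

/-- One application of the colour change rule to the set `S` of filled vertices: a filled vertex
`u` whose only unfilled neighbour is `w` makes `w` filled; `T` is the new set of filled
vertices. -/
def Forces (G : SimpleGraph V) (S T : Set V) : Prop :=
  ∃ u w : V, u ∈ S ∧ w ∉ S ∧ G.Adj u w ∧ (∀ x, G.Adj u x → x ∉ S → x = w) ∧ T = insert w S

/-- `S` is a zero forcing set: starting with exactly the vertices of `S` filled, repeated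
application of the colour change rule fills every vertex. -/
def IsZeroForcingSet (G : SimpleGraph V) (S : Set V) : Prop :=
  Relation.ReflTransGen (Forces G) S Set.univ

/-- A fort: a nonempty set `F` such that no vertex outside `F` has exactly one neighbour
in `F`. -/
def IsFort (G : SimpleGraph V) (F : Set V) : Prop :=
  F.Nonempty ∧ ∀ v, v ∉ F → (G.neighborSet v ∩ F).ncard ≠ 1

/-- A minimal fort: a fort that contains no other fort as a proper subset. -/
def IsMinimalFort (G : SimpleGraph V) (F : Set V) : Prop :=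
  IsFort G F ∧ ∀ F' : Set V, F' ⊂ F → ¬ IsFort G F'

/-- The zero forcing number `Z(G)`: the minimum size of a zero forcing set. -/
noncomputable def zeroForcingNumber (G : SimpleGraph V) : ℕ :=
  sInf {k | ∃ S : Finset V, IsZeroForcingSet G (↑S : Set V) ∧ S.card = k}

/-- The fort number `ft(G)`: the maximum number of pairwise disjoint forts. -/
noncomputable def fortNumber (G : SimpleGraph V) : ℕ :=
  sSup {k | ∃ C : Finset (Set V), (∀ F ∈ C, IsFort G F) ∧
    (∀ F ∈ C, ∀ F' ∈ C, F ≠ F' → Disjoint F F') ∧ C.card = k}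

/-- The fractional zero forcing number `Z*(G)`: the minimum of `∑ x_v` over all `x ≥ 0` with
`∑_{v ∈ F} x_v ≥ 1` for every minimal fort `F`. -/
noncomputable def fracZeroForcingNumber [Fintype V] (G : SimpleGraph V) : ℝ :=
  sInf {r | ∃ x : V → ℝ, (∀ v, 0 ≤ x v) ∧
    (∀ F : Finset V, IsMinimalFort G (↑F : Set V) → 1 ≤ ∑ v ∈ F, x v) ∧ ∑ v, x v = r}

end Defs

section General

variable {V : Type}

/-- Outside a fort, a vertex with a neighbour in the fort has a second one. -/
theorem IsFort.second {G : SimpleGraph V} {F : Set V} (hF : IsFort G F) {v u : V} (hv : v ∉ F)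
    (hu : u ∈ F) (hadj : G.Adj v u) : ∃ w ∈ F, G.Adj v w ∧ w ≠ u := by
  by_contra hcon
  push Not at hcon
  apply hF.2 v hv
  rw [Set.ncard_eq_one]
  refine ⟨u, Set.eq_singleton_iff_unique_mem.mpr ⟨⟨hadj, hu⟩, ?_⟩⟩
  rintro w ⟨hw1, hw2⟩
  exact hcon w hw2 hw1

/-- A set is a fort as soon as every outside vertex with a neighbour in it has a second one. -/
theorem isFort_of {G : SimpleGraph V} {F : Set V} (hne : F.Nonempty)
    (h : ∀ v, v ∉ F → ∀ u ∈ F, G.Adj v u → ∃ w ∈ F, G.Adj v w ∧ w ≠ u) : IsFort G F := by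
  refine ⟨hne, fun v hv hone => ?_⟩
  rw [Set.ncard_eq_one] at hone
  obtain ⟨u, hu⟩ := hone
  have hu' : u ∈ G.neighborSet v ∩ F := by rw [hu]; exact Set.mem_singleton u
  obtain ⟨w, hw1, hw2, hw3⟩ := h v hv u hu'.2 hu'.1
  have : w ∈ G.neighborSet v ∩ F := ⟨hw2, hw1⟩
  rw [hu] at this
  exact hw3 this

/-- The colour change rule never enters a fort disjoint from the filled set. -/
theorem forces_disjoint {G : SimpleGraph V} {F S T : Set V} (hF : IsFort G F)
    (hST : Forces G S T) (hS : Disjoint S F) : Disjoint T F := by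
  obtain ⟨u, w, huS, _, hadj, huniq, rfl⟩ := hST
  rw [Set.disjoint_insert_left]
  refine ⟨fun hw => ?_, hS⟩
  have huF : u ∉ F := fun h => Set.disjoint_left.mp hS huS h
  obtain ⟨x, hx1, hx2, hx3⟩ := hF.second huF hw hadj
  exact hx3 (huniq x hx2 (fun hxS => Set.disjoint_left.mp hS hxS hx1))

/-- Every zero forcing set meets every fort. -/
theorem zf_meets_fort {G : SimpleGraph V} {F S : Set V} (hF : IsFort G F)
    (hS : IsZeroForcingSet G S) : ∃ v ∈ S, v ∈ F := by
  by_contra hcon
  push Not at hcon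
  have hdis : Disjoint S F := Set.disjoint_left.mpr hcon
  have : ∀ T, Relation.ReflTransGen (Forces G) S T → Disjoint T F := by
    intro T hT
    induction hT with
    | refl => exact hdis
    | tail _ h2 ih => exact forces_disjoint hF h2 ih
  have h2 := this _ hS
  obtain ⟨x, hx⟩ := hF.1
  exact Set.disjoint_left.mp h2 (Set.mem_univ x) hx

variable [Fintype V] (G : SimpleGraph V)

/-- Every fort contains a minimal fort. -/
theorem exists_minimal (n : ℕ) : ∀ F : Finset V, F.card ≤ n → IsFort G (↑F : Set V) →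
    ∃ F' : Finset V, F' ⊆ F ∧ IsMinimalFort G (↑F' : Set V) := by
  classical
  induction n with
  | zero =>
    intro F hF hfort
    have : F = ∅ := Finset.card_eq_zero.mp (by omega)
    subst this
    simpa using hfort.1
  | succ n ih =>
    intro F hF hfort
    by_cases hmin : IsMinimalFort G (↑F : Set V)
    · exact ⟨F, subset_rfl, hmin⟩
    · have : ∃ F' : Set V, F' ⊂ (↑F : Set V) ∧ IsFort G F' := by
        by_contra hcon
        push Not at hcon
        exact hmin ⟨hfort, hcon⟩
      obtain ⟨F', h1, h2⟩ := this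
      obtain ⟨F'', rfl⟩ := Set.Finite.exists_finset_coe (Set.toFinite F')
      have hlt : F'' ⊂ F := Finset.coe_ssubset.mp h1
      have hcard := Finset.card_lt_card hlt
      obtain ⟨F3, h3, h4⟩ := ih F'' (by omega) h2
      exact ⟨F3, h3.trans hlt.subset, h4⟩

/-- A feasible solution has weight at least one on every fort. -/
theorem one_le_of_fort {x : V → ℝ} (hx : ∀ v, 0 ≤ x v)
    (hx' : ∀ F : Finset V, IsMinimalFort G (↑F : Set V) → 1 ≤ ∑ v ∈ F, x v)
    (F : Finset V) (hF : IsFort G (↑F : Set V)) : 1 ≤ ∑ v ∈ F, x v := by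
  obtain ⟨F', h1, h2⟩ := exists_minimal G F.card F le_rfl hF
  exact (hx' F' h2).trans (Finset.sum_le_sum_of_subset_of_nonneg h1 (fun v _ _ => hx v))

end General

/-- The list of edges of the counterexample: the path `0,1,...,6`, the path `7,8,9,10` and the
edges `0-8, 3-8, 3-9, 6-9`. -/
def edgeList : List (Fin 11 × Fin 11) :=
  [(0, 1), (1, 2), (2, 3), (3, 4), (4, 5), (5, 6), (7, 8), (8, 9), (9, 10),
    (0, 8), (3, 8), (3, 9), (6, 9)]

/-- Adjacency of the counterexample. -/
def adj (x y : Fin 11) : Prop := (x, y) ∈ edgeList ∨ (y, x) ∈ edgeList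

instance : DecidableRel adj := fun x y => by unfold adj; infer_instance

theorem adj_symm : ∀ x y : Fin 11, adj x y → adj y x := by decide +kernel

theorem adj_irrefl : ∀ x : Fin 11, ¬ adj x x := by decide +kernel

/-- The counterexample. -/
def GG : SimpleGraph (Fin 11) where
  Adj := adj
  symm := ⟨adj_symm⟩
  loopless := ⟨adj_irrefl⟩

instance : DecidableRel GG.Adj := fun x y => inferInstanceAs (Decidable (adj x y))

/-- One step of forcing, in a form that can be checked by evaluation. -/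
theorem force_step (S : Finset (Fin 11)) (u w : Fin 11)
    (h : u ∈ S ∧ w ∉ S ∧ GG.Adj u w ∧ ∀ x, GG.Adj u x → x ∉ S → x = w)
    (hz : IsZeroForcingSet GG (↑(insert w S) : Set (Fin 11))) :
    IsZeroForcingSet GG (↑S : Set (Fin 11)) := by
  refine Relation.ReflTransGen.head ⟨u, w, h.1, h.2.1, h.2.2.1, h.2.2.2, ?_⟩ hz
  rw [Finset.coe_insert]

/-- The set `{0, 7}` is a zero forcing set. -/
theorem zf_left : IsZeroForcingSet GG (↑({0, 7} : Finset (Fin 11)) : Set (Fin 11)) := by
  apply force_step _ 7 8 (by decide +kernel)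
  apply force_step _ 0 1 (by decide +kernel)
  apply force_step _ 1 2 (by decide +kernel)
  apply force_step _ 2 3 (by decide +kernel)
  apply force_step _ 8 9 (by decide +kernel)
  apply force_step _ 3 4 (by decide +kernel)
  apply force_step _ 4 5 (by decide +kernel)
  apply force_step _ 5 6 (by decide +kernel)
  apply force_step _ 9 10 (by decide +kernel)
  have : (insert (10 : Fin 11) (insert 6 (insert 5 (insert 4 (insert 9 (insert 3 (insert 2
      (insert 1 (insert 8 ({0, 7} : Finset (Fin 11)))))))))) : Finset (Fin 11)) = Finset.univ := by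
    decide +kernel
  rw [this, Finset.coe_univ]
  exact Relation.ReflTransGen.refl

/-- The set `{6, 10}` is a zero forcing set. -/
theorem zf_right : IsZeroForcingSet GG (↑({6, 10} : Finset (Fin 11)) : Set (Fin 11)) := by
  apply force_step _ 10 9 (by decide +kernel)
  apply force_step _ 6 5 (by decide +kernel)
  apply force_step _ 5 4 (by decide +kernel)
  apply force_step _ 4 3 (by decide +kernel)
  apply force_step _ 9 8 (by decide +kernel)
  apply force_step _ 3 2 (by decide +kernel)
  apply force_step _ 2 1 (by decide +kernel)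
  apply force_step _ 1 0 (by decide +kernel)
  apply force_step _ 8 7 (by decide +kernel)
  have : (insert (7 : Fin 11) (insert 0 (insert 1 (insert 2 (insert 8 (insert 3 (insert 4
      (insert 5 (insert 9 ({6, 10} : Finset (Fin 11)))))))))) : Finset (Fin 11)) =
      Finset.univ := by
    decide +kernel
  rw [this, Finset.coe_univ]
  exact Relation.ReflTransGen.refl

/-- Four forts covering every vertex at most twice. -/
def fam : Fin 4 → Finset (Fin 11) :=
  ![{7, 8, 1, 2, 10}, {7, 9, 4, 5, 10}, {0, 1, 3, 5, 6}, {0, 2, 3, 4, 6}]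

theorem fam_fort (i : Fin 4) : IsFort GG (↑(fam i) : Set (Fin 11)) := by
  apply isFort_of
  · have : ∀ i : Fin 4, (fam i).Nonempty := by decide +kernel
    exact this i
  · have : ∀ i : Fin 4, ∀ v, v ∉ fam i → ∀ u ∈ fam i, GG.Adj v u →
        ∃ w ∈ fam i, GG.Adj v w ∧ w ≠ u := by decide +kernel
    exact this i

theorem fam_cover : ∀ v : Fin 11, (Finset.univ.filter (fun i : Fin 4 => v ∈ fam i)).card ≤ 2 := by
  decide +kernel

/-- Double counting: the four forts have total weight at most twice the total. -/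
theorem double_count (x : Fin 11 → ℝ) (hx : ∀ v, 0 ≤ x v) :
    ∑ i : Fin 4, ∑ v ∈ fam i, x v ≤ 2 * ∑ v, x v := by
  have h1 : ∑ i : Fin 4, ∑ v ∈ fam i, x v =
      ∑ v, ((Finset.univ.filter (fun i : Fin 4 => v ∈ fam i)).card : ℝ) * x v := by
    have h2 : ∀ i : Fin 4, ∑ v ∈ fam i, x v = ∑ v, if v ∈ fam i then x v else 0 := by
      intro i
      rw [← Finset.sum_filter]
      congr 1
      ext v
      simp
    simp_rw [h2]
    rw [Finset.sum_comm]
    apply Finset.sum_congr rfl
    intro v _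
    rw [← Finset.sum_filter, Finset.sum_const, nsmul_eq_mul]
  rw [h1, Finset.mul_sum]
  apply Finset.sum_le_sum
  intro v _
  apply mul_le_mul_of_nonneg_right _ (hx v)
  exact_mod_cast fam_cover v

/-- Neighbourhood lists of the counterexample. -/
theorem nbrs : (∀ x, GG.Adj 0 x → x = 1 ∨ x = 8) ∧ (∀ x, GG.Adj 1 x → x = 0 ∨ x = 2) ∧
    (∀ x, GG.Adj 2 x → x = 1 ∨ x = 3) ∧ (∀ x, GG.Adj 4 x → x = 3 ∨ x = 5) ∧
    (∀ x, GG.Adj 5 x → x = 4 ∨ x = 6) ∧ (∀ x, GG.Adj 6 x → x = 5 ∨ x = 9) ∧
    (∀ x, GG.Adj 7 x → x = 8) ∧ (∀ x, GG.Adj 10 x → x = 9) ∧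
    (∀ x, GG.Adj 8 x → x = 0 ∨ x = 3 ∨ x = 7 ∨ x = 9) ∧
    (∀ x, GG.Adj 9 x → x = 3 ∨ x = 6 ∨ x = 8 ∨ x = 10) := by decide +kernel

/-- The conditions that a fort satisfies, used below. -/
theorem fort_facts (F : Set (Fin 11)) (hF : IsFort GG F) :
    (0 ∉ F → (8 ∈ F → 1 ∈ F)) ∧ (1 ∉ F → (0 ∈ F → 2 ∈ F)) ∧ (2 ∉ F → (1 ∈ F → 3 ∈ F)) ∧
    (4 ∉ F → (5 ∈ F → 3 ∈ F)) ∧ (5 ∉ F → (6 ∈ F → 4 ∈ F)) ∧ (6 ∉ F → (9 ∈ F → 5 ∈ F)) ∧
    (7 ∉ F → 8 ∉ F) ∧ (10 ∉ F → 9 ∉ F) ∧
    (8 ∉ F → (0 ∈ F → 3 ∈ F ∨ 7 ∈ F ∨ 9 ∈ F)) ∧ (8 ∉ F → (7 ∈ F → 0 ∈ F ∨ 3 ∈ F ∨ 9 ∈ F)) ∧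
    (9 ∉ F → (6 ∈ F → 3 ∈ F ∨ 8 ∈ F ∨ 10 ∈ F)) ∧
    (9 ∉ F → (10 ∈ F → 3 ∈ F ∨ 6 ∈ F ∨ 8 ∈ F)) := by
  obtain ⟨n0, n1, n2, n4, n5, n6, n7, n10, n8, n9⟩ := nbrs
  refine ⟨?_, ?_, ?_, ?_, ?_, ?_, ?_, ?_, ?_, ?_, ?_, ?_⟩
  · intro h h'
    obtain ⟨w, hw1, hw2, hw3⟩ := hF.second h h' (by decide +kernel)
    rcases n0 w hw2 with rfl | rfl
    · exact hw1
    · exact absurd rfl hw3
  · intro h h'
    obtain ⟨w, hw1, hw2, hw3⟩ := hF.second h h' (by decide +kernel)
    rcases n1 w hw2 with rfl | rfl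
    · exact absurd rfl hw3
    · exact hw1
  · intro h h'
    obtain ⟨w, hw1, hw2, hw3⟩ := hF.second h h' (by decide +kernel)
    rcases n2 w hw2 with rfl | rfl
    · exact absurd rfl hw3
    · exact hw1
  · intro h h'
    obtain ⟨w, hw1, hw2, hw3⟩ := hF.second h h' (by decide +kernel)
    rcases n4 w hw2 with rfl | rfl
    · exact hw1
    · exact absurd rfl hw3
  · intro h h'
    obtain ⟨w, hw1, hw2, hw3⟩ := hF.second h h' (by decide +kernel)
    rcases n5 w hw2 with rfl | rfl
    · exact hw1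
    · exact absurd rfl hw3
  · intro h h'
    obtain ⟨w, hw1, hw2, hw3⟩ := hF.second h h' (by decide +kernel)
    rcases n6 w hw2 with rfl | rfl
    · exact hw1
    · exact absurd rfl hw3
  · intro h h'
    obtain ⟨w, hw1, hw2, hw3⟩ := hF.second h h' (by decide +kernel)
    exact hw3 (n7 w hw2)
  · intro h h'
    obtain ⟨w, hw1, hw2, hw3⟩ := hF.second h h' (by decide +kernel)
    exact hw3 (n10 w hw2)
  · intro h h'
    obtain ⟨w, hw1, hw2, hw3⟩ := hF.second h h' (by decide +kernel)
    rcases n8 w hw2 with rfl | rfl | rfl | rfl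
    · exact absurd rfl hw3
    · exact Or.inl hw1
    · exact Or.inr (Or.inl hw1)
    · exact Or.inr (Or.inr hw1)
  · intro h h'
    obtain ⟨w, hw1, hw2, hw3⟩ := hF.second h h' (by decide +kernel)
    rcases n8 w hw2 with rfl | rfl | rfl | rfl
    · exact Or.inl hw1
    · exact Or.inr (Or.inl hw1)
    · exact absurd rfl hw3
    · exact Or.inr (Or.inr hw1)
  · intro h h'
    obtain ⟨w, hw1, hw2, hw3⟩ := hF.second h h' (by decide +kernel)
    rcases n9 w hw2 with rfl | rfl | rfl | rfl
    · exact Or.inl hw1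
    · exact absurd rfl hw3
    · exact Or.inr (Or.inl hw1)
    · exact Or.inr (Or.inr hw1)
  · intro h h'
    obtain ⟨w, hw1, hw2, hw3⟩ := hF.second h h' (by decide +kernel)
    rcases n9 w hw2 with rfl | rfl | rfl | rfl
    · exact Or.inl hw1
    · exact Or.inr (Or.inl hw1)
    · exact Or.inr (Or.inr hw1)
    · exact absurd rfl hw3

/-- No two forts are disjoint: the case where the first one contains `0` and the second one
contains `7`. -/
theorem no_two_aux (F F' : Set (Fin 11)) (hF : IsFort GG F) (hF' : IsFort GG F')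
    (hd : Disjoint F F') (h0 : (0 : Fin 11) ∈ F) (h7 : (7 : Fin 11) ∈ F') : False := by
  have hdis : ∀ i, ¬ (i ∈ F ∧ i ∈ F') := fun i h => Set.disjoint_left.mp hd h.1 h.2
  obtain ⟨f1, f2, f3, f4, f5, f6, f7, f8, f9, f10, f11, f12⟩ := fort_facts F hF
  obtain ⟨g1, g2, g3, g4, g5, g6, g7, g8, g9, g10, g11, g12⟩ := fort_facts F' hF'
  have hr : (6 : Fin 11) ∈ F ∨ (10 : Fin 11) ∈ F := by
    obtain ⟨v, hv1, hv2⟩ := zf_meets_fort hF zf_right
    simp only [Finset.coe_insert, Finset.coe_singleton, Set.mem_insert_iff,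
      Set.mem_singleton_iff] at hv1
    rcases hv1 with rfl | rfl
    · exact Or.inl hv2
    · exact Or.inr hv2
  have hr' : (6 : Fin 11) ∈ F' ∨ (10 : Fin 11) ∈ F' := by
    obtain ⟨v, hv1, hv2⟩ := zf_meets_fort hF' zf_right
    simp only [Finset.coe_insert, Finset.coe_singleton, Set.mem_insert_iff,
      Set.mem_singleton_iff] at hv1
    rcases hv1 with rfl | rfl
    · exact Or.inl hv2
    · exact Or.inr hv2
  have d0 := hdis 0
  have d1 := hdis 1
  have d2 := hdis 2
  have d3 := hdis 3
  have d4 := hdis 4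
  have d5 := hdis 5
  have d6 := hdis 6
  have d7 := hdis 7
  have d8 := hdis 8
  have d9 := hdis 9
  have d10 := hdis 10
  clear hdis hd hF hF'
  grind

/-- No two forts are disjoint. -/
theorem no_two (F F' : Set (Fin 11)) (hF : IsFort GG F) (hF' : IsFort GG F')
    (hd : Disjoint F F') : False := by
  have hl : (0 : Fin 11) ∈ F ∨ (7 : Fin 11) ∈ F := by
    obtain ⟨v, hv1, hv2⟩ := zf_meets_fort hF zf_left
    simp only [Finset.coe_insert, Finset.coe_singleton, Set.mem_insert_iff,
      Set.mem_singleton_iff] at hv1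
    rcases hv1 with rfl | rfl
    · exact Or.inl hv2
    · exact Or.inr hv2
  have hl' : (0 : Fin 11) ∈ F' ∨ (7 : Fin 11) ∈ F' := by
    obtain ⟨v, hv1, hv2⟩ := zf_meets_fort hF' zf_left
    simp only [Finset.coe_insert, Finset.coe_singleton, Set.mem_insert_iff,
      Set.mem_singleton_iff] at hv1
    rcases hv1 with rfl | rfl
    · exact Or.inl hv2
    · exact Or.inr hv2
  rcases hl with h | h <;> rcases hl' with h' | h'
  · exact Set.disjoint_left.mp hd h h'
  · exact no_two_aux F F' hF hF' hd h h'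
  · exact no_two_aux F' F hF' hF hd.symm h' h
  · exact Set.disjoint_left.mp hd h h'

theorem Z_eq : zeroForcingNumber GG = 2 := by
  apply IsLeast.csInf_eq
  constructor
  · exact ⟨{0, 7}, zf_left, by decide⟩
  · rintro k ⟨S, hS, rfl⟩
    have h1 : ∀ i : Fin 4, 1 ≤ ∑ v ∈ fam i, (if v ∈ S then (1 : ℝ) else 0) := by
      intro i
      obtain ⟨v, hv1, hv2⟩ := zf_meets_fort (fam_fort i) hS
      have : (1 : ℝ) = if v ∈ S then (1 : ℝ) else 0 := by
        rw [if_pos (Finset.mem_coe.mp hv1)]
      exact this.le.trans (Finset.single_le_sum (f := fun v => if v ∈ S then (1 : ℝ) else 0)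
        (fun v _ => by positivity) (Finset.mem_coe.mp hv2))
    have h2 := double_count (fun v => if v ∈ S then (1 : ℝ) else 0) (fun v => by positivity)
    have h3 : ∑ v, (if v ∈ S then (1 : ℝ) else 0) = S.card := by simp
    rw [h3] at h2
    have h4 : (4 : ℝ) ≤ ∑ i : Fin 4, ∑ v ∈ fam i, (if v ∈ S then (1 : ℝ) else 0) := by
      rw [Fin.sum_univ_four]
      linarith [h1 0, h1 1, h1 2, h1 3]
    have h5 : (2 : ℝ) ≤ S.card := by linarith
    exact_mod_cast h5

theorem Zstar_eq : fracZeroForcingNumber GG = 2 := by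
  apply IsLeast.csInf_eq
  constructor
  · refine ⟨fun v => if v ∈ ({0, 7} : Finset (Fin 11)) then (1 : ℝ) else 0,
      fun v => by positivity, ?_, ?_⟩
    · intro F hF
      obtain ⟨v, hv1, hv2⟩ := zf_meets_fort hF.1 zf_left
      have : (1 : ℝ) = if v ∈ ({0, 7} : Finset (Fin 11)) then (1 : ℝ) else 0 := by
        rw [if_pos (Finset.mem_coe.mp hv1)]
      exact this.le.trans (Finset.single_le_sum
        (f := fun v => if v ∈ ({0, 7} : Finset (Fin 11)) then (1 : ℝ) else 0)
        (fun v _ => by positivity) (Finset.mem_coe.mp hv2))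
    · have h3 : ∑ v, (if v ∈ ({0, 7} : Finset (Fin 11)) then (1 : ℝ) else 0) =
          (({0, 7} : Finset (Fin 11)).card : ℝ) := by
        rw [← Finset.sum_filter, Finset.sum_const, nsmul_eq_mul, mul_one]
        congr 2
      rw [h3]
      have : (({0, 7} : Finset (Fin 11)).card) = 2 := by decide
      rw [this]
      norm_num
  · rintro r ⟨x, hx, hx', rfl⟩
    have h1 : ∀ i : Fin 4, 1 ≤ ∑ v ∈ fam i, x v := fun i =>
      one_le_of_fort GG hx hx' (fam i) (fam_fort i)
    have h2 := double_count x hx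
    rw [Fin.sum_univ_four] at h2
    linarith [h1 0, h1 1, h1 2, h1 3]

theorem ft_eq : fortNumber GG = 1 := by
  classical
  apply IsGreatest.csSup_eq
  constructor
  · refine ⟨{(↑(fam 0) : Set (Fin 11))}, ?_, ?_, Finset.card_singleton _⟩
    · intro F hF
      rw [Finset.mem_singleton] at hF
      subst hF
      exact fam_fort 0
    · intro F hF F' hF' hne
      rw [Finset.mem_singleton] at hF hF'
      exact absurd (hF.trans hF'.symm) hne
  · rintro k ⟨C, h1, h2, rfl⟩
    by_contra hlt
    obtain ⟨F, hF, F', hF', hne⟩ := Finset.one_lt_card.mp (not_le.mp hlt)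
    exact no_two F F' (h1 F hF) (h1 F' hF') (h2 F hF F' hF' hne)

theorem conn : GG.Connected := by
  have h : ∀ v : Fin 11, GG.Reachable 0 v := by
    have e : ∀ a b : Fin 11, GG.Adj a b → GG.Reachable 0 a → GG.Reachable 0 b :=
      fun a b h h' => h'.trans h.reachable
    have r0 : GG.Reachable 0 0 := SimpleGraph.Reachable.refl 0
    have r1 := e 0 1 (by decide +kernel) r0
    have r2 := e 1 2 (by decide +kernel) r1
    have r3 := e 2 3 (by decide +kernel) r2
    have r4 := e 3 4 (by decide +kernel) r3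
    have r5 := e 4 5 (by decide +kernel) r4
    have r6 := e 5 6 (by decide +kernel) r5
    have r8 := e 0 8 (by decide +kernel) r0
    have r7 := e 8 7 (by decide +kernel) r8
    have r9 := e 8 9 (by decide +kernel) r8
    have r10 := e 9 10 (by decide +kernel) r9
    intro v
    fin_cases v <;> assumption
  exact ⟨fun u v => (h u).symm.trans (h v)⟩

/-- There is a connected graph (with 11 vertices) for which the fractional zero forcing number
equals the zero forcing number, both being `2`, whereas the fort number is `1`. -/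
theorem result : ∃ G : SimpleGraph (Fin 11), G.Connected ∧
    fracZeroForcingNumber G = 2 ∧ zeroForcingNumber G = 2 ∧ fortNumber G = 1 :=
  ⟨GG, conn, Zstar_eq, Z_eq, ft_eq⟩

end Pool.Agent.Results.MP_7d76f2_co.Counterexample
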